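import Pool.Agent.PLG.Stmts

/-!
# Squad PLG (MP_1fc801_co), row GEN: short words generate
-/

set_option autoImplicit false

namespace Pool.Agent.PLG.H7

open Module

/-- the products of the words of length at most `m` -/
def wd (Q : Set ℝ) (m : ℕ) : Set ℝ :=
  {x | ∃ l : List ℝ, l.length ≤ m ∧ (∀ q ∈ l, q ∈ Q) ∧ x = l.prod}

theorem wd_mono (Q : Set ℝ) (m : ℕ) : wd Q m ⊆ wd Q (m + 1) := by
  rintro x ⟨l, h1, h2, h3⟩
  exact ⟨l, h1.trans (Nat.le_succ m), h2, h3⟩

theorem wd_sub (Q : Set ℝ) (m : ℕ) :
    Submodule.span ℚ (wd Q m) ≤ Subalgebra.toSubmodule (Algebra.adjoin ℚ Q) := by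
  rw [Submodule.span_le]
  rintro x ⟨l, -, h2, rfl⟩
  show l.prod ∈ Algebra.adjoin ℚ Q
  exact Subalgebra.list_prod_mem _ fun q hq => Algebra.subset_adjoin (h2 q hq)

theorem one_mem_wd (Q : Set ℝ) (m : ℕ) : (1 : ℝ) ∈ Submodule.span ℚ (wd Q m) :=
  Submodule.subset_span ⟨[], Nat.zero_le _, by simp, by simp⟩

theorem stop (Q : Set ℝ) (m : ℕ)
    (h : Submodule.span ℚ (wd Q (m + 1)) = Submodule.span ℚ (wd Q m)) :
    Submodule.span ℚ (wd Q m) = Subalgebra.toSubmodule (Algebra.adjoin ℚ Q) := by
  apply le_antisymm (wd_sub Q m)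
  have hmul : ∀ q ∈ Q, ∀ u ∈ Submodule.span ℚ (wd Q m), q * u ∈ Submodule.span ℚ (wd Q m) := by
    intro q hq u hu
    rw [← h]
    induction hu using Submodule.span_induction with
    | mem x hx =>
      obtain ⟨l, h1, h2, rfl⟩ := hx
      refine Submodule.subset_span ⟨q :: l, ?_, ?_, ?_⟩
      · rw [List.length_cons]
        omega
      · intro r hr
        rcases List.mem_cons.1 hr with rfl | hr
        · exact hq
        · exact h2 r hr
      · rw [List.prod_cons]
    | zero => rw [mul_zero]; exact Submodule.zero_mem _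
    | add x y _ _ hx hy => rw [mul_add]; exact Submodule.add_mem _ hx hy
    | smul c x _ hx => rw [mul_smul_comm]; exact Submodule.smul_mem _ _ hx
  let S : Subalgebra ℚ ℝ :=
    { carrier := {a | ∀ u ∈ Submodule.span ℚ (wd Q m), a * u ∈ Submodule.span ℚ (wd Q m)}
      mul_mem' := by
        intro a b ha hb u hu
        rw [mul_assoc]
        exact ha _ (hb _ hu)
      one_mem' := by
        intro u hu
        rw [one_mul]
        exact hu
      add_mem' := by
        intro a b ha hb u hu
        rw [add_mul]
        exact Submodule.add_mem _ (ha u hu) (hb u hu)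
      zero_mem' := by
        intro u _
        rw [zero_mul]
        exact Submodule.zero_mem _
      algebraMap_mem' := by
        intro c u hu
        rw [← Algebra.smul_def]
        exact Submodule.smul_mem _ _ hu }
  have hS : Algebra.adjoin ℚ Q ≤ S := Algebra.adjoin_le fun q hq u hu => hmul q hq u hu
  intro a ha
  have h1 : a ∈ S := hS ha
  have h2 := h1 1 (one_mem_wd Q m)
  rwa [mul_one] at h2

/-- **GEN**. -/
theorem gen : GenStmt := by
  intro Q e hfin he
  have hfin' : FiniteDimensional ℚ (Subalgebra.toSubmodule (Algebra.adjoin ℚ Q)) := hfin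
  have he' : finrank ℚ (Subalgebra.toSubmodule (Algebra.adjoin ℚ Q)) = e := he
  have hfd : ∀ m, FiniteDimensional ℚ (Submodule.span ℚ (wd Q m)) := fun m =>
    Submodule.finiteDimensional_of_le (wd_sub Q m)
  have key : ∀ m, Submodule.span ℚ (wd Q m) = Subalgebra.toSubmodule (Algebra.adjoin ℚ Q) ∨
      m + 1 ≤ finrank ℚ (Submodule.span ℚ (wd Q m)) := by
    intro m
    induction m with
    | zero =>
      right
      have hne : Nontrivial (Submodule.span ℚ (wd Q 0)) := by
        refine ⟨⟨⟨1, one_mem_wd Q 0⟩, 0, ?_⟩⟩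
        intro h
        have := congrArg Subtype.val h
        simp at this
      have := hfd 0
      exact Module.finrank_pos
    | succ m ih =>
      rcases ih with h | h
      · left
        apply le_antisymm (wd_sub Q (m + 1))
        rw [← h]
        exact Submodule.span_mono (wd_mono Q m)
      · by_cases h2 : Submodule.span ℚ (wd Q (m + 1)) = Submodule.span ℚ (wd Q m)
        · left
          rw [h2]
          exact stop Q m h2
        · right
          have hlt : Submodule.span ℚ (wd Q m) < Submodule.span ℚ (wd Q (m + 1)) :=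
            lt_of_le_of_ne (Submodule.span_mono (wd_mono Q m)) (Ne.symm h2)
          have := hfd (m + 1)
          have h3 := Submodule.finrank_lt_finrank_of_lt hlt
          omega
  have hU : Submodule.span ℚ (wd Q e) = Subalgebra.toSubmodule (Algebra.adjoin ℚ Q) := by
    rcases key e with h | h
    · exact h
    · have h1 := Submodule.finrank_mono (wd_sub Q e)
      rw [he'] at h1
      omega
  obtain ⟨b, hb, hbs, hbl⟩ := exists_linearIndependent ℚ (wd Q e)
  have hr : Submodule.span ℚ (Set.range (fun x : b => (x : ℝ)))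
      = Subalgebra.toSubmodule (Algebra.adjoin ℚ Q) := by
    rw [Subtype.range_coe, hbs, hU]
  let B := Basis.span hbl
  have hF : FiniteDimensional ℚ (Submodule.span ℚ (Set.range (fun x : b => (x : ℝ)))) := by
    rw [hr]
    exact hfin'
  have hbf : Finite b := Module.Finite.finite_basis B
  have hcard : Nat.card b = e := by
    rw [← Module.finrank_eq_nat_card_basis B]
    have : finrank ℚ (Submodule.span ℚ (Set.range (fun x : b => (x : ℝ)))) = e := by
      rw [hr, he']
    exact this
  let E : b ≃ Fin e := Finite.equivFinOfCardEq hcard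
  refine ⟨fun i => (E.symm i : ℝ), hbl.comp _ E.symm.injective, ?_⟩
  intro i
  exact hb (E.symm i).2

end Pool.Agent.PLG.H7
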