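import Pool.Agent.PLG.Stmts

/-!
# Squad PLG (MP_1fc801_co), row SLC: sums over consecutive lines
-/

set_option autoImplicit false

namespace Pool.Agent.PLG.H7

open Module

/-- **SLC**. -/
theorem slc (sol : SolStmt) : SlcStmt := by
  classical
  intro E _ _ f G Θ r q hD hr hq hΘ
  have hcnt : (0 : ℝ) ≤ cnt f G (2 * r) := Nat.cast_nonneg _
  rcases Nat.lt_or_ge Θ.card 2 with h2 | h2
  · have h3 : (Θ.card : ℝ) ≤ 1 := by
      have : Θ.card ≤ 1 := by omega
      exact_mod_cast this
    nlinarith [sq_nonneg q]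
  · obtain ⟨n, hn⟩ : ∃ n, Θ.card = n + 1 := ⟨Θ.card - 1, by omega⟩
    let o := Θ.orderEmbOfFin hn
    let t : ℕ → ℝ := fun i => if h : i < n + 1 then o ⟨i, h⟩ else 0
    have ht : ∀ i, ∀ h : i < n + 1, t i = o ⟨i, h⟩ := fun i h => dif_pos h
    have htm : ∀ i < n, t i < t (i + 1) := by
      intro i hi
      rw [ht i (by omega), ht (i + 1) (by omega)]
      exact o.strictMono (by simp [Fin.lt_def])
    have htΘ : ∀ i ≤ n, t i ∈ Θ := by
      intro i hi
      rw [ht i (by omega)]
      exact Finset.orderEmbOfFin_mem Θ hn _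
    let S : ℕ → Finset ℂ := fun i => ps f (lp G (t i)) r
    have hS : ∀ i, ∀ x ∈ S i, x ∈ G ∧ x.im = t i * x.re ∧ ‖f x‖ ≤ r ∧ 0 < x.re := by
      intro i x hx
      have h := (mem_ps (hD.lp (t i))).1 hx
      exact ⟨h.1.1, h.1.2, h.2.1, h.2.2⟩
    have hSc : ∀ i ≤ n, q / 3 ≤ (S i).card := by
      intro i hi
      have h1 := hΘ (t i) (htΘ i hi)
      have h3 := card_ps_lp hD hr (t i)
      have h4 : (cnt f (lp G (t i)) r : ℝ) = 2 * ((S i).card : ℝ) + 1 := by
        rw [h3]
        push_cast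
        rfl
      rw [h4] at h1
      linarith
    have hsol := sol n t S htm (fun i _ x hx => ⟨(hS i x hx).2.1, (hS i x hx).2.2.2⟩)
    -- the triples
    let T : Finset (Σ _ : ℕ, ℂ × ℂ) := (Finset.range n).sigma fun i => S i ×ˢ S (i + 1)
    have hT : T.card ≤ (bl f G (2 * r)).card := by
      refine Finset.card_le_card_of_injOn (fun p => p.2.1 + p.2.2) ?_ ?_
      · rintro ⟨i, x, y⟩ hp
        have hp' := Finset.mem_sigma.1 (Finset.mem_coe.1 hp)
        have hxy := Finset.mem_product.1 hp'.2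
        have hx := hS i x hxy.1
        have hy := hS (i + 1) y hxy.2
        rw [Finset.mem_coe, two_mul]
        exact add_mem_bl hD ((mem_bl hD).2 ⟨hx.1, hx.2.2.1⟩) ((mem_bl hD).2 ⟨hy.1, hy.2.2.1⟩)
      · rintro ⟨i, x, y⟩ hp ⟨i', x', y'⟩ hp' heq
        have h1 := Finset.mem_sigma.1 (Finset.mem_coe.1 hp)
        have h1' := Finset.mem_sigma.1 (Finset.mem_coe.1 hp')
        have hxy := Finset.mem_product.1 h1.2
        have hxy' := Finset.mem_product.1 h1'.2
        obtain ⟨e1, e2, e3⟩ := hsol i i' (Finset.mem_range.1 h1.1) (Finset.mem_range.1 h1'.1)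
          x hxy.1 y hxy.2 x' hxy'.1 y' hxy'.2 heq
        subst e1
        subst e2
        subst e3
        rfl
    have hTc : (n : ℝ) * (q / 3) ^ 2 ≤ T.card := by
      have h1 : T.card = ∑ i ∈ Finset.range n, (S i).card * (S (i + 1)).card := by
        rw [Finset.card_sigma]
        exact Finset.sum_congr rfl fun i _ => Finset.card_product _ _
      rw [h1]
      push_cast
      have h4 : ∑ i ∈ Finset.range n, (q / 3) ^ 2
          ≤ ∑ i ∈ Finset.range n, ((S i).card : ℝ) * ((S (i + 1)).card : ℝ) := by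
        refine Finset.sum_le_sum fun i hi => ?_
        have hi' := Finset.mem_range.1 hi
        rw [sq]
        exact mul_le_mul (hSc i (by omega)) (hSc (i + 1) (by omega)) (by linarith)
          (Nat.cast_nonneg _)
      rw [Finset.sum_const, Finset.card_range, nsmul_eq_mul] at h4
      exact h4
    have h5 : (T.card : ℝ) ≤ cnt f G (2 * r) := by
      exact_mod_cast hT
    rw [hn]
    push_cast
    nlinarith [hTc, h5]

end Pool.Agent.PLG.H7
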